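import Mathlib
import Pool.Agent.H16.ORB.W

/-! MP_5182ad_lc, oracle barrier, row PRE (helper23). -/

set_option linter.all false

open Polynomial Finset

namespace Pool.ORB

namespace PREaux

/-- The machine: pushes the letters of `u` on the stack, asks, and halts with the answer
(`neg = false`) or its negation. -/
def mach (u : List Bool) (neg : Bool) : OM where
  k := 0
  n := u.length
  ask := fun q => decide (q.1 = u.length)
  tr := fun q b _ =>
    if h : q.1 < u.length then
      Sum.inr (⟨q.1 + 1, by omega⟩, fun _ => Act.push (u[u.length - 1 - q.1]'(by omega)))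
    else Sum.inl (if neg then !b else b)

theorem run_mach (O : Set (List Bool)) (u v : List Bool) (neg : Bool) [Decidable (u ++ v ∈ O)] :
    ∀ (m j : ℕ) (hj : j + m = u.length),
      (mach u neg).run O (m + 1) ((⟨j, by show j < u.length + 1; omega⟩, fun _ => u.drop m ++ v) :
        (mach u neg).Cfg) = some (if neg then !(decide (u ++ v ∈ O)) else decide (u ++ v ∈ O)) := by
  intro m
  induction m with
  | zero =>
    intro j hj
    have hj' : j = u.length := by omega
    subst hj'
    have hs : (mach u neg).step O ((⟨u.length, by show u.length < u.length + 1; omega⟩,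
        fun _ => u.drop 0 ++ v) : (mach u neg).Cfg) =
        Sum.inl (if neg then !(decide (u ++ v ∈ O)) else decide (u ++ v ∈ O)) := by
      unfold OM.step
      simp [mach]
    rw [OM.run, hs]
  | succ m ih =>
    intro j hj
    have hlt : j < u.length := by omega
    have hs : (mach u neg).step O ((⟨j, by show j < u.length + 1; omega⟩,
        fun _ => u.drop (m + 1) ++ v) : (mach u neg).Cfg) =
        Sum.inr ((⟨j + 1, by show j + 1 < u.length + 1; omega⟩, fun _ => u.drop m ++ v) :
          (mach u neg).Cfg) := by
      unfold OM.step
      have hd : u.drop m = u[m] :: u.drop (m + 1) := List.drop_eq_getElem_cons (by omega)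
      have he : u.length - 1 - j = m := by omega
      simp only [mach, hlt, dif_pos, he, Act.ap, hd, List.cons_append]
    rw [OM.run, hs]
    exact ih (j + 1) (by omega)

theorem dec (O : Set (List Bool)) (u : List Bool) (neg : Bool) (L : Set (List Bool))
    (hL : ∀ v, v ∈ L ↔ (if neg then u ++ v ∉ O else u ++ v ∈ O)) : L ∈ PT O := by
  classical
  refine ⟨mach u neg, C (u.length + 1), fun v => ?_⟩
  rw [Polynomial.eval_C]
  have h0 : (mach u neg).init v = ((⟨0, by show 0 < u.length + 1; omega⟩,
      fun _ => u.drop u.length ++ v) : (mach u neg).Cfg) := by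
    unfold OM.init
    refine Prod.ext rfl ?_
    funext i
    have hi : i = 0 := Subsingleton.elim (α := Fin 1) i 0
    simp [hi]
  rw [h0, run_mach O u v neg u.length 0 (by omega)]
  congr 1
  cases neg with
  | false => simp [hL v]
  | true => simp [hL v]

end PREaux

theorem pre_thm : PREStmt := fun O u =>
  ⟨PREaux.dec O u false _ (fun v => by simp), PREaux.dec O u true _ (fun v => by simp)⟩

end Pool.ORB
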